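import Pool.Agent.Helper96.VF.Goals

/-!
Project VF, packet U1A.
-/

set_option autoImplicit false

namespace Pool.Agent.Helper83.VF

open Pool.Agent.Helper96.VF

theorem row_le {y : ℕ} {S : Finset (ℕ × ℕ)} (hy : 1 ≤ y) (hR : InR y S) {a b : ℕ}
    (h : (a, b) ∈ S) : a ≤ Nat.log 2 y ∧ b ≤ Nat.log 3 y := by
  have h1 := hR _ h
  simp only at h1
  have p2 : 1 ≤ 2 ^ a := Nat.one_le_two_pow
  have p3 : 1 ≤ 3 ^ b := Nat.one_le_pow _ _ (by norm_num)
  constructor
  · apply Nat.le_log_of_pow_le (by norm_num)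
    calc 2 ^ a = 2 ^ a * 1 := (mul_one _).symm
      _ ≤ 2 ^ a * 3 ^ b := Nat.mul_le_mul_left _ p3
      _ ≤ y := h1
  · apply Nat.le_log_of_pow_le (by norm_num)
    calc 3 ^ b = 1 * 3 ^ b := (one_mul _).symm
      _ ≤ 2 ^ a * 3 ^ b := Nat.mul_le_mul_right _ p2
      _ ≤ y := h1

theorem gU1A (hROW : ROW) (hTILE : TILE) : U1A := by
  intro y S hy hV hR
  obtain ⟨D, lo, hi, h1, h2, h3, h4⟩ := hROW S hV
  have himg : (S.image Prod.snd).card ≤ Nat.log 3 y + 1 := by
    have hsub : S.image Prod.snd ⊆ Finset.range (Nat.log 3 y + 1) := by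
      intro b hb
      obtain ⟨⟨a, b'⟩, hab, rfl⟩ := Finset.mem_image.1 hb
      have := (row_le hy hR hab).2
      rw [Finset.mem_range]
      simp only
      omega
    have := Finset.card_le_card hsub
    rwa [Finset.card_range] at this
  have hD : 2 * D.card ≤ Nat.log 2 y + 1 := by
    rcases Finset.eq_empty_or_nonempty D with h | ⟨b0, hb0⟩
    · subst h
      simp
    · have hA : 1 ≤ Nat.log 2 y := by
        obtain ⟨_, q2, q3⟩ := h1 b0 hb0
        have := (row_le hy hR q2).1
        omega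
      have := (hTILE D lo 0 (Nat.log 2 y - 1) (by
        intro b hb b' hb' hlt
        have e1 := h2 b hb b' hb' hlt
        have e2 := (h1 b' hb').2.2
        omega) (by
        intro b hb
        obtain ⟨_, q2, q3⟩ := h1 b hb
        have := (row_le hy hR q2).1
        omega)).1
      omega
  rw [h4]
  omega

end Pool.Agent.Helper83.VF
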